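import Pool.Agent.Q163.GC.Var
import Pool.Agent.Q163.BC.Flip

set_option autoImplicit false

/-!
# The Good-Churchhouse conjecture for almost every completely multiplicative twist of the Moebius function

Let `χ` be the completely multiplicative function with independent fair signs at the primes. Almost surely
the function `μ χ` satisfies the conjecture of Good and Churchhouse on the mean square of the sums over
windows of length `H`, for ALL `1 ≤ H ≤ X ^ (1 - ε)` at once and with a power saving error term; this also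
holds for all the functions `μ χ'` with `χ'` equal to `χ` at all but finitely many primes. More generally
for `μ a χ`, `a` an arbitrary bounded function, the off-diagonal terms save a power.
-/

namespace Pool.Agent.Results.MP_0575cc_nt.AlmostEveryTwist

open Finset Filter Topology MeasureTheory Pool.Agent.Q163.RP Pool.Agent.Q163.RX Pool.Agent.Q163.GC
  Pool.Agent.Q163.BC

/-- the completely multiplicative function with the value `1` or `-1` at the prime `p` according to `ω p` -/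
noncomputable def chi (ω : ℕ → Bool) (n : ℕ) : ℝ :=
  ∏ p ∈ n.primeFactors, (if ω p = true then 1 else -1) ^ n.factorization p

/-- the Moebius function -/
noncomputable def moeb (n : ℕ) : ℝ := ((ArithmeticFunction.moebius n : ℤ) : ℝ)

/-- the sum of `f` over the integers `n ≥ 0` with `|n - x| < H / 2` -/
noncomputable def M (f : ℕ → ℝ) (x H : ℝ) : ℝ :=
  ∑ n ∈ (Finset.range (⌈x + H⌉₊ + 1)).filter (fun n : ℕ => |(n : ℝ) - x| < H / 2), f n

/-- the mean square `V(X;H)` -/
noncomputable def V (f : ℕ → ℝ) (X H : ℝ) : ℝ := 1 / X * ∫ x in X..2 * X, M f x H ^ 2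

/-- the Good-Churchhouse conjecture for `f`, uniformly for `1 ≤ H ≤ X ^ (1 - ε)` with a power saving -/
def GoodChurchhouse (f : ℕ → ℝ) : Prop :=
  ∀ ε : ℝ, 0 < ε → ∃ c : ℝ, 0 < c ∧ ∃ X₀ : ℝ, 1 ≤ X₀ ∧ ∀ X H : ℝ, X₀ ≤ X → 1 ≤ H → H ≤ X ^ (1 - ε) →
    |V f X H - 6 / Real.pi ^ 2 * H| ≤ H * X ^ (-c)

lemma ch_eq (ω : ℕ → Bool) (n : ℕ) : ch ω n = chi ω n := by
  unfold ch chi mult sg es sgn
  refine Finset.prod_congr rfl fun p _ => ?_
  rw [if_pos (Set.mem_univ p)]

lemma kappa_le : 6 / Real.pi ^ 2 ≤ 1 := by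
  have := Real.pi_gt_three
  rw [div_le_one (by positivity)]
  nlinarith

/-- almost every function -/
theorem ae_one : ∀ᵐ ω ∂cm, GoodChurchhouse fun n => moeb n * chi ω n := by
  filter_upwards [main Pool.Agent.Y293.SF.mu Pool.Agent.Y293.SF.abs_mu_le mu_ne] with ω hω
  have hfe : (fun n => moeb n * chi ω n) = fun n => Pool.Agent.Y293.SF.mu n * ch ω n := by
    funext n
    rw [ch_eq]
    rfl
  rw [hfe]
  refine var_real _ (6 / Real.pi ^ 2) (by positivity) kappa_le fun ε hε => ?_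
  obtain ⟨c0, C0, hc0, hC0, h0⟩ := hω (min ε (1 / 2)) (lt_min hε (by norm_num))
  refine ⟨min c0 (1 / 2), C0 + 20, lt_min hc0 (by norm_num), by positivity, fun N h hN hh => ?_⟩
  have hNR : (1 : ℝ) ≤ N := by exact_mod_cast hN
  have hN0 : (0 : ℝ) < N := by linarith
  have h1 := h0 N h hN (hh.trans (Real.rpow_le_rpow_of_exponent_le hNR
    (by linarith [min_le_left ε (1 / 2)])))
  have h2 := DD_mu N h
  have hhN : (h : ℝ) ≤ N := by
    calc (h : ℝ) ≤ (N : ℝ) ^ (1 - ε) := hh
      _ ≤ (N : ℝ) ^ (1 : ℝ) := Real.rpow_le_rpow_of_exponent_le hNR (by linarith)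
      _ = N := Real.rpow_one _
  have h3 : Real.sqrt (N + h) ≤ 2 * (N * (N : ℝ) ^ (-(min c0 (1 / 2)))) := by
    have e1 : Real.sqrt (N + h) ≤ Real.sqrt (4 * N) := Real.sqrt_le_sqrt (by linarith)
    have e2 : Real.sqrt (4 * N) = 2 * Real.sqrt N := by
      rw [Real.sqrt_mul (by norm_num), show (4 : ℝ) = 2 ^ 2 by norm_num, Real.sqrt_sq (by norm_num)]
    have e3 : Real.sqrt N ≤ N * (N : ℝ) ^ (-(min c0 (1 / 2))) := by
      have e4 : (N : ℝ) * (N : ℝ) ^ (-(min c0 (1 / 2))) = (N : ℝ) ^ (1 - min c0 (1 / 2)) := by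
        rw [sub_eq_add_neg, Real.rpow_add hN0, Real.rpow_one]
      rw [e4, Real.sqrt_eq_rpow]
      exact Real.rpow_le_rpow_of_exponent_le hNR (by linarith [min_le_right c0 (1 / 2)])
    linarith
  have h4 : (N : ℝ) ^ (-c0) ≤ (N : ℝ) ^ (-(min c0 (1 / 2))) :=
    Real.rpow_le_rpow_of_exponent_le hNR (neg_le_neg (min_le_left _ _))
  have h5 : |BB (fun n => Pool.Agent.Y293.SF.mu n * ch ω n) N h - 6 / Real.pi ^ 2 * (h * N)| ≤
      C0 * (h * N) * (N : ℝ) ^ (-c0) + 10 * (h * Real.sqrt (N + h)) := by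
    have e1 : BB (fun n => Pool.Agent.Y293.SF.mu n * ch ω n) N h - 6 / Real.pi ^ 2 * (h * N) =
        (BB (fun n => Pool.Agent.Y293.SF.mu n * ch ω n) N h - DD Pool.Agent.Y293.SF.mu N h) +
        (DD Pool.Agent.Y293.SF.mu N h - 6 / Real.pi ^ 2 * (h * N)) := by ring
    rw [e1]
    exact (abs_add_le _ _).trans (add_le_add h1 h2)
  refine h5.trans ?_
  have hh0 : (0 : ℝ) ≤ h := Nat.cast_nonneg _
  calc C0 * (h * N) * (N : ℝ) ^ (-c0) + 10 * (h * Real.sqrt (N + h))
      ≤ C0 * (h * N) * (N : ℝ) ^ (-(min c0 (1 / 2))) +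
        10 * (h * (2 * (N * (N : ℝ) ^ (-(min c0 (1 / 2)))))) := by
        refine add_le_add (mul_le_mul_of_nonneg_left h4 (by positivity)) ?_
        exact mul_le_mul_of_nonneg_left (mul_le_mul_of_nonneg_left h3 hh0) (by norm_num)
    _ = (C0 + 20) * (h * N) * (N : ℝ) ^ (-(min c0 (1 / 2))) := by ring

/-- an almost sure property holds for all finite modifications -/
theorem ae_finite {P : (ℕ → Bool) → Prop} (h : ∀ᵐ ω ∂cm, P ω) :
    ∀ᵐ ω ∂cm, ∀ ω' : ℕ → Bool, {p | ω' p ≠ ω p}.Finite → P ω' := by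
  have h1 : ∀ᵐ ω ∂cm, ∀ S : Finset ℕ, P (flS (S : Set ℕ) ω) := by
    rw [ae_all_iff]
    intro S
    exact (mp_flS (S : Set ℕ)).quasiMeasurePreserving.ae h
  filter_upwards [h1] with ω hω ω' hf
  have h2 := hω hf.toFinset
  have h3 : flS ((hf.toFinset : Finset ℕ) : Set ℕ) ω = ω' := by
    funext p
    unfold flS
    rw [Set.Finite.coe_toFinset]
    by_cases hp : ω' p = ω p
    · rw [if_neg (by simp [hp])]
      exact hp.symm
    · rw [if_pos (by simpa using hp)]
      cases hω : ω p <;> cases hω' : ω' p <;> simp_all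
  rwa [h3] at h2

/-- **The Good-Churchhouse conjecture for almost every completely multiplicative twist.** -/
theorem result :
    -- (1) almost every function and all its finite modifications
    (∀ᵐ ω ∂cm, ∀ ω' : ℕ → Bool, {p | ω' p ≠ ω p}.Finite →
      GoodChurchhouse fun n => moeb n * chi ω' n) ∧
    -- (2) this is the asymptotic formula of the problem
    (∀ f : ℕ → ℝ, GoodChurchhouse f → ∀ ε : ℝ, 0 < ε → ∀ H : ℝ → ℝ,
      (∀ᶠ X in atTop, X ^ ε < H X ∧ H X < X ^ (1 - ε)) →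
      Tendsto (fun X => V f X (H X) / (H X / (Real.pi ^ 2 / 6))) atTop (𝓝 1)) ∧
    -- (3) the values at the small primes can be those of the Moebius function
    (∀ y : ℕ, ∃ g : ℕ → ℝ, (∀ n, g n = 1 ∨ g n = -1) ∧
      (∀ m n, 1 ≤ m → 1 ≤ n → g (m * n) = g m * g n) ∧ (∀ p : ℕ, p.Prime → p ≤ y → g p = 1) ∧
      GoodChurchhouse fun n => moeb n * g n) ∧
    -- (4) arbitrary weights, integer windows
    (∀ a : ℕ → ℝ, (∀ n, |a n| ≤ 1) → ∀ᵐ ω ∂cm, ∀ ε : ℝ, 0 < ε → ∃ c C : ℝ, 0 < c ∧ 0 ≤ C ∧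
      ∀ N h : ℕ, 1 ≤ N → (h : ℝ) ≤ (N : ℝ) ^ (1 - ε) →
        |∑ x ∈ range N, (∑ j ∈ range h, moeb (x + j + 1) * a (x + j + 1) * chi ω (x + j + 1)) ^ 2 -
          ∑ x ∈ range N, ∑ j ∈ range h, (moeb (x + j + 1) * a (x + j + 1)) ^ 2| ≤
          C * (h * N) * (N : ℝ) ^ (-c)) := by
  refine ⟨ae_finite ae_one, ?_, ?_, ?_⟩
  · intro f hf ε hε H hH
    obtain ⟨c, hc, X0, hX0, h1⟩ := hf ε hε
    have h2 : Tendsto (fun X : ℝ => Real.pi ^ 2 / 6 * X ^ (-c)) atTop (𝓝 0) := by
      have := (tendsto_rpow_neg_atTop hc).const_mul (Real.pi ^ 2 / 6)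
      rwa [mul_zero] at this
    rw [tendsto_iff_norm_sub_tendsto_zero]
    refine squeeze_zero' (Eventually.of_forall fun _ => norm_nonneg _) ?_ h2
    have hXe : ∀ᶠ X : ℝ in atTop, 1 ≤ X ^ ε := (tendsto_rpow_atTop hε).eventually_ge_atTop 1
    filter_upwards [hH, eventually_ge_atTop X0, hXe] with X hX hXX hX1
    have hH1 : 1 ≤ H X := hX1.trans hX.1.le
    have hH0 : 0 < H X := by linarith
    have h3 := h1 X (H X) hXX hH1 hX.2.le
    have hpi : 0 < Real.pi ^ 2 / 6 := by positivity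
    have e1 : V f X (H X) / (H X / (Real.pi ^ 2 / 6)) - 1 =
        (Real.pi ^ 2 / 6) / H X * (V f X (H X) - 6 / Real.pi ^ 2 * H X) := by
      have : Real.pi ≠ 0 := Real.pi_ne_zero
      field_simp
    rw [e1, Real.norm_eq_abs, abs_mul, abs_of_pos (by positivity : 0 < (Real.pi ^ 2 / 6) / H X)]
    calc (Real.pi ^ 2 / 6) / H X * |V f X (H X) - 6 / Real.pi ^ 2 * H X|
        ≤ (Real.pi ^ 2 / 6) / H X * (H X * X ^ (-c)) :=
          mul_le_mul_of_nonneg_left h3 (by positivity)
      _ = Real.pi ^ 2 / 6 * X ^ (-c) := by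
          field_simp
  · intro y
    obtain ⟨ω, hω⟩ := (ae_finite ae_one).exists
    set ω' : ℕ → Bool := fun p => if p ≤ y then true else ω p with hω'
    have h1 := hω ω' (by
      refine (Set.finite_Iic y).subset fun p hp => ?_
      by_contra hc
      simp only [Set.mem_Iic] at hc
      exact hp (by rw [hω']; simp [hc]))
    refine ⟨chi ω', ?_, ?_, ?_, h1⟩
    · intro n
      have := abs_ch ω' n
      rw [ch_eq] at this
      exact (abs_eq zero_le_one).1 this
    · intro m n hm hn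
      rw [← ch_eq, ← ch_eq, ← ch_eq]
      exact ch_mul ω' (by omega) (by omega)
    · intro p hp hpy
      unfold chi
      rw [hp.primeFactors, Finset.prod_singleton, hp.factorization_self, pow_one, hω', if_pos]
      simp [hpy]
  · intro a ha
    have h1 := main (fun n => Pool.Agent.Y293.SF.mu n * a n)
      (fun n => by
        rw [abs_mul]
        have := mul_le_mul (Pool.Agent.Y293.SF.abs_mu_le n) (ha n) (abs_nonneg _) zero_le_one
        linarith)
      (fun n hn => mu_ne n fun h0 => hn (by rw [h0, zero_mul]))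
    filter_upwards [h1] with ω hω ε hε
    obtain ⟨c, C, hc, hC, h2⟩ := hω ε hε
    refine ⟨c, C, hc, hC, fun N h hN hh => ?_⟩
    have h3 := h2 N h hN hh
    unfold BB DD W at h3
    simp only [ch_eq] at h3
    exact h3

end Pool.Agent.Results.MP_0575cc_nt.AlmostEveryTwist
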