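import Pool.Agent.Q260.GC.B5

/-!
# Half of the Good-Churchhouse variance in windows of length proportional to `x`

`M(x;H) = ∑_{n ≥ 1, |n - x| < H/2} μ(n)`. For `0 < δ < 2` put
`D_X(δ) = (1/log X) ∫_1^X (M(x; δ x) / x)² dx`. The conjecture of Good and Churchhouse, extended to windows
`H = δ x` with `δ` small, predicts `D_X(δ) ≈ (6/π²) δ`.

No hypothesis is assumed. There are `C` and `δ₀` such that for every `0 < δ < δ₀` and all large `X`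
`D_X(δ) ≥ (3/π²) δ (1 - C / log (1/δ))`, half of the predicted value.

If all nontrivial zeros are simple and on the critical line and `∑ 1/|ρ ζ'(ρ)|² < ∞`, this says
`∑_ρ |((1 + δ/2)^ρ - (1 - δ/2)^ρ) / (ρ ζ'(ρ))|² ≥ (3/π²) δ (1 - C / log (1/δ))`.
-/

set_option autoImplicit false

open MeasureTheory Filter Topology Set

namespace Pool.Agent.Results.MP_0575cc_nt.HalfMacroscopic

/-- the nontrivial zeros of the zeta function -/
def Zer : Set ℂ := {s | riemannZeta s = 0 ∧ 0 < s.re ∧ s.re < 1}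

/-- `M(x;H)`, the sum of `μ(n)` over the positive integers with `|n - x| < H/2` -/
noncomputable def M (x H : ℝ) : ℝ :=
  ∑ n ∈ (Finset.Icc 1 ⌈x + H⌉₊).filter (fun n : ℕ => |(n : ℝ) - x| < H / 2),
    ((ArithmeticFunction.moebius n : ℤ) : ℝ)

/-- `D_X(δ)`, the logarithmic mean square of `M(x; δ x)` -/
noncomputable def D (δ X : ℝ) : ℝ := (∫ x in (1:ℝ)..X, (M x (δ * x) / x) ^ 2) / Real.log X

theorem result :
    ∃ C δ₀ : ℝ, 0 < C ∧ 0 < δ₀ ∧ δ₀ < 1 ∧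
      -- half of the predicted variance, no hypothesis
      (∀ δ : ℝ, 0 < δ → δ < δ₀ →
        ∀ᶠ X in atTop, 3 / Real.pi ^ 2 * δ * (1 - C / Real.log (1 / δ)) ≤ D δ X) ∧
      -- the sum over the zeros, when it makes sense
      ((∀ ρ ∈ Zer, ρ.re = 1 / 2 ∧ deriv riemannZeta ρ ≠ 0) →
        Summable (fun ρ : Zer => 1 / ‖(ρ : ℂ) * deriv riemannZeta ρ‖ ^ 2) →
        ∀ δ : ℝ, 0 < δ → δ < δ₀ → 3 / Real.pi ^ 2 * δ * (1 - C / Real.log (1 / δ)) ≤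
          ∑' ρ : Zer, ‖(((1 + δ / 2 : ℝ) : ℂ) ^ (ρ : ℂ) - ((1 - δ / 2 : ℝ) : ℂ) ^ (ρ : ℂ)) /
            ((ρ : ℂ) * deriv riemannZeta ρ)‖ ^ 2) := by
  obtain ⟨C, δ₀, hC, h0, h1, h⟩ := Q260.GC.DD_ge
  have hD : D = Pool.Agent.Q276.MW.DD := rfl
  refine ⟨C, δ₀, hC, h0, h1, fun δ hδ hδ1 => hD ▸ h δ hδ hδ1, fun hS hs δ hδ hδ1 => ?_⟩
  have hZ : Pool.Agent.W120.WM.ZC := ⟨hS, hs⟩
  have h2 := Pool.Agent.Q276.MW.DD_lim hZ hδ (by linarith)
  exact ge_of_tendsto h2 (h δ hδ hδ1)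

end Pool.Agent.Results.MP_0575cc_nt.HalfMacroscopic
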