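import Pool.Agent.Q276.MW.C2

/-!
# Moebius sums in windows of length proportional to `x`

`M(x;H) = ∑_{n ≥ 1, |n - x| < H/2} μ(n)`. For `0 < δ < 2` put
`D_X(δ) = (1/log X) ∫_1^X (M(x; δ x) / x)² dx`.

No hypothesis is assumed.

* The limit of `D_X(δ)` as `X → ∞` exists in `[0, ∞]` for every `0 < δ < 2`. It is finite exactly when all
  nontrivial zeros lie on the critical line and are simple and `∑ 1/|ρ ζ'(ρ)|² < ∞`, and then it equals
  `∑_ρ |((1 + δ/2)^ρ - (1 - δ/2)^ρ) / (ρ ζ'(ρ))|²`.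
* For every real `κ`: the limit `D(δ)` is finite for all `0 < δ < 2` and `D(δ)/δ → κ` as `δ → 0`, if and
  only if the Riemann hypothesis holds, all zeros are simple and
  `∑_{0 < γ ≤ T} 1/|ζ'(ρ)|² ~ (κ / 2π) T`. For `κ = 6/π² = 1/ζ(2)`, the constant of Good and Churchhouse,
  this is Gonek's conjecture `∑_{0 < γ ≤ T} 1/|ζ'(ρ)|² ~ (3/π³) T`.
* For `0 < α < 2`: `D(δ) ≪ δ^α` if and only if the Riemann hypothesis holds, all zeros are simple and
  `∑_{0 < γ ≤ T} 1/|ζ'(ρ)|² ≪ T^(2 - α)`.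
-/

set_option autoImplicit false

open MeasureTheory Filter Topology Set

namespace Pool.Agent.Results.MP_0575cc_nt.MacroscopicWindows

/-- the nontrivial zeros of the zeta function -/
def Zer : Set ℂ := {s | riemannZeta s = 0 ∧ 0 < s.re ∧ s.re < 1}

/-- `M(x;H)`, the sum of `μ(n)` over the positive integers with `|n - x| < H/2` -/
noncomputable def M (x H : ℝ) : ℝ :=
  ∑ n ∈ (Finset.Icc 1 ⌈x + H⌉₊).filter (fun n : ℕ => |(n : ℝ) - x| < H / 2),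
    ((ArithmeticFunction.moebius n : ℤ) : ℝ)

/-- `D_X(δ)`, the logarithmic mean square of `M(x; δ x)` -/
noncomputable def D (δ X : ℝ) : ℝ := (∫ x in (1:ℝ)..X, (M x (δ * x) / x) ^ 2) / Real.log X

/-- all nontrivial zeros are on the critical line and simple -/
def RHSimple : Prop := ∀ ρ ∈ Zer, ρ.re = 1 / 2 ∧ deriv riemannZeta ρ ≠ 0

/-- the moment `∑_{0 < γ ≤ T} 1/|ζ'(ρ)|²` (a finite sum) -/
noncomputable def J (T : ℝ) : ℝ :=
  ∑' ρ : {s : ℂ | s ∈ Zer ∧ 0 < s.im ∧ s.im ≤ T}, 1 / ‖deriv riemannZeta (ρ : ℂ)‖ ^ 2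

theorem result :
    -- the limit exists in `[0, ∞]`
    (∀ δ : ℝ, 0 < δ → δ < 2 →
      (RHSimple ∧ Summable (fun ρ : Zer => 1 / ‖(ρ : ℂ) * deriv riemannZeta ρ‖ ^ 2) →
        Tendsto (D δ) atTop (𝓝 (∑' ρ : Zer,
          ‖(((1 + δ / 2 : ℝ) : ℂ) ^ (ρ : ℂ) - ((1 - δ / 2 : ℝ) : ℂ) ^ (ρ : ℂ)) /
            ((ρ : ℂ) * deriv riemannZeta ρ)‖ ^ 2))) ∧
      (¬ (RHSimple ∧ Summable (fun ρ : Zer => 1 / ‖(ρ : ℂ) * deriv riemannZeta ρ‖ ^ 2)) →
        Tendsto (D δ) atTop atTop)) ∧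
    -- small windows: asymptotics
    (∀ κ : ℝ,
      (∃ L : ℝ → ℝ, (∀ δ : ℝ, 0 < δ → δ < 2 → Tendsto (D δ) atTop (𝓝 (L δ))) ∧
        Tendsto (fun δ => L δ / δ) (𝓝[>] 0) (𝓝 κ)) ↔
      RHSimple ∧ Tendsto (fun T => J T / T) atTop (𝓝 (κ / (2 * Real.pi)))) ∧
    -- the constant of Good and Churchhouse
    ((∃ L : ℝ → ℝ, (∀ δ : ℝ, 0 < δ → δ < 2 → Tendsto (D δ) atTop (𝓝 (L δ))) ∧
        Tendsto (fun δ => L δ / δ) (𝓝[>] 0) (𝓝 (6 / Real.pi ^ 2))) ↔
      RHSimple ∧ Tendsto (fun T => J T / T) atTop (𝓝 (3 / Real.pi ^ 3))) ∧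
    -- small windows: bounds
    (∀ α : ℝ, 0 < α → α < 2 →
      [∃ K δ₀ : ℝ, 0 < δ₀ ∧ ∀ δ : ℝ, 0 < δ → δ < δ₀ → ∃ᶠ X in atTop, D δ X ≤ K * δ ^ α,
        ∃ K : ℝ, ∀ δ : ℝ, 0 < δ → δ < 2 → ∀ᶠ X in atTop, D δ X ≤ K * δ ^ α,
        RHSimple ∧ ∃ C : ℝ, ∀ T : ℝ, 1 ≤ T → J T ≤ C * T ^ (2 - α)].TFAE) := by
  have hD : D = Pool.Agent.Q276.MW.DD := rfl
  have hJ : J = Pool.Agent.Q276.MW.JT := rfl
  have hR : RHSimple = Pool.Agent.Q276.MW.SZ := rfl
  have hZC : (RHSimple ∧ Summable (fun ρ : Zer => 1 / ‖(ρ : ℂ) * deriv riemannZeta ρ‖ ^ 2)) =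
    Pool.Agent.W120.WM.ZC := rfl
  have hlin : ∀ κ : ℝ,
      (∃ L : ℝ → ℝ, (∀ δ : ℝ, 0 < δ → δ < 2 → Tendsto (D δ) atTop (𝓝 (L δ))) ∧
        Tendsto (fun δ => L δ / δ) (𝓝[>] 0) (𝓝 κ)) ↔
      RHSimple ∧ Tendsto (fun T => J T / T) atTop (𝓝 (κ / (2 * Real.pi))) := by
    intro κ
    rw [hD, hJ, hR]
    constructor
    · rintro ⟨L, h1, h2⟩
      have hZ : Pool.Agent.W120.WM.ZC := by
        refine Pool.Agent.Q276.MW.ZC_of_DD (δ := 1) one_pos one_lt_two (C := L 1 + 1)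
          (Eventually.frequently ?_)
        exact ((h1 1 one_pos one_lt_two).eventually (gt_mem_nhds (lt_add_one _))).mono fun X hX => hX.le
      refine ⟨hZ.1, (Pool.Agent.Q276.MW.DL_iff_JT hZ κ).1 (h2.congr' ?_)⟩
      filter_upwards [Ioo_mem_nhdsGT (show (0:ℝ) < 1 by norm_num)] with δ hδ
      rw [tendsto_nhds_unique (h1 δ hδ.1 (by linarith [hδ.2]))
        (Pool.Agent.Q276.MW.DD_lim hZ hδ.1 (by linarith [hδ.2]))]
    · rintro ⟨hS, h1⟩
      have hZ : Pool.Agent.W120.WM.ZC := by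
        obtain ⟨T0, hT0⟩ := eventually_atTop.1 ((h1.eventually (gt_mem_nhds (lt_add_one _))).and
          (eventually_gt_atTop (0:ℝ)))
        obtain ⟨c, hc⟩ : ∃ c : ℝ, c = κ / (2 * Real.pi) + 1 := ⟨_, rfl⟩
        rw [← hc] at hT0
        refine (Pool.Agent.Q276.MW.ZC_of_JT hS (C := |c| + Pool.Agent.Q276.MW.JT (max T0 1)) (β := 1)
          zero_le_one one_lt_two fun T hT => ?_).2.2
        rw [Real.rpow_one]
        have hJ0 := Pool.Agent.Q276.MW.JT_nonneg (max T0 1)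
        rcases le_total T0 T with h2 | h2
        · obtain ⟨h3, h4⟩ := hT0 T h2
          rw [div_lt_iff₀ h4] at h3
          nlinarith [le_abs_self c, mul_nonneg hJ0 h4.le]
        · have h3 : Pool.Agent.Q276.MW.JT T ≤ Pool.Agent.Q276.MW.JT (max T0 1) := by
            have e1 := Pool.Agent.Q276.MW.NN_eq hS T
            have e2 := Pool.Agent.Q276.MW.NN_eq hS (max T0 1)
            have e3 : Pool.Agent.Q276.MW.TB.NN Pool.Agent.Q276.MW.dz Pool.Agent.Q276.MW.tz T ≤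
                Pool.Agent.Q276.MW.TB.NN Pool.Agent.Q276.MW.dz Pool.Agent.Q276.MW.tz (max T0 1) := by
              unfold Pool.Agent.Q276.MW.TB.NN
              refine (Pool.Agent.Q276.MW.ind_sm T).tsum_le_tsum (fun i => ?_)
                (Pool.Agent.Q276.MW.ind_sm (max T0 1))
              have h4 := Pool.Agent.Q276.MW.dz_nonneg i
              by_cases h5 : Pool.Agent.Q276.MW.tz i ≤ T
              · rw [if_pos h5, if_pos (h5.trans (h2.trans (le_max_left _ _)))]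
              · rw [if_neg h5]
                split_ifs
                · exact h4
                · exact le_rfl
            linarith
          nlinarith [abs_nonneg c]
      exact ⟨Pool.Agent.Q276.MW.DL, fun δ h2 h3 => Pool.Agent.Q276.MW.DD_lim hZ h2 h3,
        (Pool.Agent.Q276.MW.DL_iff_JT hZ κ).2 h1⟩
  refine ⟨fun δ h0 h2 => ⟨fun h => ?_, fun h => ?_⟩, hlin, ?_, fun α hα0 hα => ?_⟩
  · rw [hZC] at h
    exact Pool.Agent.Q276.MW.DD_lim h h0 h2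
  · rw [hZC] at h
    exact Pool.Agent.Q276.MW.DD_top h h0 h2
  · have h1 := hlin (6 / Real.pi ^ 2)
    have h2 : 6 / Real.pi ^ 2 / (2 * Real.pi) = 3 / Real.pi ^ 3 := by
      have := Real.pi_ne_zero
      field_simp
      ring
    rwa [h2] at h1
  · rw [hD, hJ, hR]
    tfae_have 2 → 1 := by
      rintro ⟨K, hK⟩
      exact ⟨K, 1, one_pos, fun δ h0 h1 => (hK δ h0 (by linarith)).frequently⟩
    tfae_have 1 → 3 := by
      rintro ⟨K, δ₀, hδ₀, hK⟩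
      have hm : 0 < min δ₀ 2 / 2 := by positivity
      have hm1 : min δ₀ 2 / 2 < δ₀ := by
        have := min_le_left δ₀ 2
        linarith
      have hm2 : min δ₀ 2 / 2 < 2 := by
        have := min_le_right δ₀ 2
        linarith
      have hZ : Pool.Agent.W120.WM.ZC := Pool.Agent.Q276.MW.ZC_of_DD hm hm2 (hK _ hm hm1)
      refine ⟨hZ.1, Pool.Agent.Q276.MW.JT_of_DL (K := K) hZ hα.le hδ₀ (fun δ h0 h1 h2 => ?_) hα0⟩
      exact le_of_tendsto_of_frequently (Pool.Agent.Q276.MW.DD_lim hZ h0 h2) (hK δ h0 h1)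
    tfae_have 3 → 2 := by
      rintro ⟨hS, C, hC⟩
      obtain ⟨hZ, K, hK, h⟩ := Pool.Agent.Q276.MW.DL_of_JT hS hα0 hα.le hC
      refine ⟨K + 1, fun δ h0 h2 => ?_⟩
      have h3 := h δ h0 h2
      have h4 : 0 < δ ^ α := Real.rpow_pos_of_pos h0 α
      have h5 : Pool.Agent.Q276.MW.DL δ < (K + 1) * δ ^ α := by linarith
      exact ((Pool.Agent.Q276.MW.DD_lim hZ h0 h2).eventually (gt_mem_nhds h5)).mono fun X hX => hX.le
    tfae_finish

end Pool.Agent.Results.MP_0575cc_nt.MacroscopicWindows
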