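import Pool.Agent.Q152.QT.AllMom
import Pool.Agent.Q152.QT.VarTwist
import Pool.Agent.Q68.QT.MeanQ
import Pool.Agent.Q208.QT.GridQ
import Pool.Agent.Q285.QT.InterpU
import Pool.Agent.Q285.QT.VarU

set_option autoImplicit false

/-!
# The Good-Churchhouse conjecture for the Moebius function twisted by almost every quadratic symbol

For a function `g` with values `1` and `-1` and an odd modulus `m` consider `g(n) μ(n) (n/m)`, with the Jacobi
symbol. For all but `P Y ^ (-c)` of the primes `p ≤ P` the mean square `V(X;H)` of the sums of `g(n) μ(n) (n/p)`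
over the windows of length `H` with centre in `[X, 2X]` is `H/ζ(2) + O(H X ^ (-c))`, simultaneously for all `X` with
`Y ≤ X ≤ P ^ (1/7)` and all `H` with `1 ≤ H ≤ X ^ (1-ε)`. Moreover all the moments of bounded order of these sums
are those of the normal law.
-/

namespace Pool.Agent.Results.MP_0575cc_nt.QuadraticTwists

open Finset Filter Topology MeasureTheory Pool.Agent.Q163.GC Pool.Agent.Q152.QT

/-- The sum of `g(n) μ(n) (n/m)` over the integers `n` with `|n - x| < H / 2`; `(n/m)` is the Jacobi symbol. -/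
noncomputable def M (g : ℕ → ℝ) (m : ℕ) (x H : ℝ) : ℝ :=
  ∑ n ∈ (Finset.range (⌈x + H⌉₊ + 1)).filter (fun n : ℕ => |(n : ℝ) - x| < H / 2),
    g n * ((ArithmeticFunction.moebius n : ℤ) : ℝ) * ((jacobiSym (n : ℤ) m : ℤ) : ℝ)

/-- The mean square `V(X;H)` of the sums over the windows of length `H`. -/
noncomputable def V (g : ℕ → ℝ) (m : ℕ) (X H : ℝ) : ℝ := 1 / X * ∫ x in X..2 * X, M g m x H ^ 2

/-- The moment of order `k` of the sums divided by `√(H/ζ(2))`. -/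
noncomputable def moment (g : ℕ → ℝ) (m k : ℕ) (X H : ℝ) : ℝ :=
  1 / X * ∫ x in X..2 * X, (M g m x H / Real.sqrt (H / (Real.pi ^ 2 / 6))) ^ k

/-- The moments of the standard normal law: `(k-1)!!` for even `k` and `0` for odd `k`. -/
def normal (k : ℕ) : ℕ := if Even k then (k - 1).doubleFactorial else 0

/-- `V(X;H)` is `H/ζ(2)` up to `H X ^ (-c)`, for all `H` with `1 ≤ H ≤ X ^ (1-ε)`. -/
def GoodChurchhouse (g : ℕ → ℝ) (m : ℕ) (ε c X : ℝ) : Prop :=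
  ∀ H : ℝ, 1 ≤ H → H ≤ X ^ (1 - ε) → |V g m X H - H / (Real.pi ^ 2 / 6)| ≤ H * X ^ (-c)

/-- The moments of order at most `k₀` are those of the standard normal law up to `δ`, for all `H` with
`X ^ ε ≤ H ≤ X ^ (1-ε)`. -/
def Moments (g : ℕ → ℝ) (m k₀ : ℕ) (ε δ X : ℝ) : Prop :=
  ∀ H : ℝ, X ^ ε ≤ H → H ≤ X ^ (1 - ε) → ∀ k ≤ k₀, |moment g m k X H - normal k| ≤ δ

lemma kappa (H : ℝ) : H / (Real.pi ^ 2 / 6) = 6 / Real.pi ^ 2 * H := by
  have := Real.pi_pos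
  field_simp

lemma good_of (g : ℕ → ℝ) (m : ℕ) (ε c X : ℝ)
    (h : ∀ H : ℝ, 1 ≤ H → H ≤ X ^ (1 - ε) →
      |1 / X * (∫ x in X..2 * X, Mf (fm g m) x H ^ 2) - 6 / Real.pi ^ 2 * H| ≤ H * X ^ (-c)) :
    GoodChurchhouse g m ε c X := by
  intro H h1 h2
  rw [kappa]
  exact h H h1 h2

lemma moments_of (g : ℕ → ℝ) (m k₀ : ℕ) (ε δ X : ℝ)
    (h : ∀ H : ℝ, X ^ ε ≤ H → H ≤ X ^ (1 - ε) → ∀ k ≤ k₀,
      |(∫ x in X..2 * X, (Mf (fm g m) x H / √(6 / Real.pi ^ 2 * H)) ^ k) / X - gm k| ≤ δ) :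
    Moments g m k₀ ε δ X := by
  intro H h1 h2 k hk
  unfold moment
  rw [kappa, one_div, mul_comm, ← div_eq_mul_inv]
  exact h H h1 h2 k hk

/-- the variance -/
theorem variance (ε : ℝ) (hε : 0 < ε) (hε1 : ε < 1) :
    ∃ c Y₀ : ℝ, 0 < c ∧ 1 ≤ Y₀ ∧ ∀ (g : ℕ → ℝ) (P : ℕ) (Y : ℝ), (∀ n, g n = 1 ∨ g n = -1) → Y₀ ≤ Y →
      (({p : ℕ | p ≤ P ∧ p.Prime ∧ ¬ ∀ X : ℝ, Y ≤ X → X ^ 7 ≤ P →
        GoodChurchhouse g p ε c X}.ncard : ℕ) : ℝ) ≤ P * Y ^ (-c) ∧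
      (({m : ℕ | m ≤ P ∧ Odd m ∧ ¬ ∀ X : ℝ, Y ≤ X → X ^ 7 ≤ P →
        (∀ q : ℕ, q.Prime → q ∣ m → 6 * X < q) → GoodChurchhouse g m ε c X}.ncard : ℕ) : ℝ) ≤
        P * Y ^ (-c) := by
  obtain ⟨c, Y₀, hc, hc1, hY₀, H⟩ := var_twist
    (Pool.Agent.Q208.QT.t_GridQ (Pool.Agent.Q68.QT.t_MeanQ Pool.Agent.Q14.QT.t_Char))
    Pool.Agent.Q285.QT.t_InterpU Pool.Agent.Q285.QT.t_VarU ε hε hε1
  obtain ⟨Y1, hY1⟩ : ∃ Y1 : ℝ, ∀ Y : ℝ, Y1 ≤ Y → 2 ≤ Y ^ (c / 2) :=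
    ((tendsto_rpow_atTop (by positivity : 0 < c / 2)).eventually_ge_atTop 2).exists_forall_of_atTop
  refine ⟨c / 2, max (max Y₀ Y1) 2, by positivity, ?_, fun g P Y hg hY => ?_⟩
  · have : (2 : ℝ) ≤ max (max Y₀ Y1) 2 := le_max_right _ _
    linarith
  have hYY₀ : Y₀ ≤ Y := (le_max_left _ _).trans ((le_max_left _ _).trans hY)
  have hY2 : 2 ≤ Y := (le_max_right _ _).trans hY
  have hYc := hY1 Y ((le_max_right _ _).trans ((le_max_left _ _).trans hY))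
  obtain ⟨E, hE, L⟩ := H g P Y hg hYY₀
  have hY0 : 0 < Y := by linarith
  have hP0 : (0 : ℝ) ≤ P := Nat.cast_nonneg P
  have hYe : Y ^ (-c) * Y ^ (c / 2) = Y ^ (-(c / 2)) := by
    rw [← Real.rpow_add hY0]; congr 1; ring
  have hEc : 2 * (P * Y ^ (-c)) ≤ P * Y ^ (-(c / 2)) := by
    rw [← hYe]
    have : 0 ≤ (P : ℝ) * Y ^ (-c) := by positivity
    nlinarith
  have hPY : 0 ≤ (P : ℝ) * Y ^ (-c) := by positivity
  have shrink : ∀ X H' : ℝ, Y ≤ X → 1 ≤ H' → H' * X ^ (-c) ≤ H' * X ^ (-(c / 2)) := by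
    intro X H' h1 h2
    refine mul_le_mul_of_nonneg_left ?_ (by linarith)
    exact Real.rpow_le_rpow_of_exponent_le (by linarith) (by linarith)
  constructor
  · by_cases hYP : Y ^ 7 ≤ P
    swap
    · have : {p : ℕ | p ≤ P ∧ p.Prime ∧ ¬ ∀ X : ℝ, Y ≤ X → X ^ 7 ≤ P →
          GoodChurchhouse g p ε (c / 2) X} = ∅ := by
        ext p
        simp only [Set.mem_ofPred_eq, Set.mem_empty_iff_false, iff_false, not_and, not_not]
        intro _ _ X h1 h2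
        exact absurd ((pow_le_pow_left₀ hY0.le h1 7).trans h2) hYP
      rw [this, Set.ncard_empty]
      push_cast
      positivity
    set s : ℝ := (P : ℝ) ^ ((1 : ℝ) / 7) with hs
    have hs7 : s ^ 7 = P := by
      rw [hs, ← Real.rpow_natCast, ← Real.rpow_mul hP0]
      norm_num
    have hs0 : 0 ≤ s := by positivity
    have hle : ∀ X : ℝ, X ^ 7 ≤ P → 0 ≤ X → X ≤ s := by
      intro X h1 h2
      rw [← hs7] at h1
      exact le_of_pow_le_pow_left₀ (by norm_num) hs0 h1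
    have hYs : Y ≤ s := hle Y hYP hY0.le
    have hs2 : 2 ≤ s := hY2.trans hYs
    set S : Finset ℕ := range (⌊6 * s⌋₊ + 1) with hS
    have hsub : {p : ℕ | p ≤ P ∧ p.Prime ∧ ¬ ∀ X : ℝ, Y ≤ X → X ^ 7 ≤ P →
        GoodChurchhouse g p ε (c / 2) X} ⊆ ((E ∪ S : Finset ℕ) : Set ℕ) := by
      rintro p ⟨p1, p2, p3⟩
      rw [coe_union, Set.mem_union, mem_coe, mem_coe]
      by_contra hcon
      rw [not_or] at hcon
      have hbig : 6 * s < p := by
        have : ⌊6 * s⌋₊ < p := by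
          have := hcon.2
          rw [hS, mem_range] at this
          omega
        exact (Nat.floor_lt (by positivity)).1 this
      apply p3
      intro X hX1 hX2
      have hX0 : 0 ≤ X := by linarith
      have hX3 := hle X hX2 hX0
      have hodd : Odd p := by
        rcases p2.eq_two_or_odd' with h2 | h2
        · exfalso
          rw [h2] at hbig
          push_cast at hbig
          linarith
        · exact h2
      refine good_of g p ε (c / 2) X fun H' h1 h2 => ?_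
      refine (L p p1 hodd hcon.1 X H' hX1 hX2 (fun q hq hqd => ?_) h1 h2).trans (shrink X H' hX1 h1)
      rw [(Nat.prime_dvd_prime_iff_eq hq p2).1 hqd]
      linarith
    have c1 : {p : ℕ | p ≤ P ∧ p.Prime ∧ ¬ ∀ X : ℝ, Y ≤ X → X ^ 7 ≤ P →
        GoodChurchhouse g p ε (c / 2) X}.ncard ≤ (E ∪ S).card := by
      rw [← Set.ncard_coe_finset (E ∪ S)]
      exact Set.ncard_le_ncard hsub (finite_toSet _)
    have c2 : ((E ∪ S).card : ℝ) ≤ E.card + S.card := by exact_mod_cast card_union_le _ _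
    have c3 : (S.card : ℝ) ≤ 6 * s + 1 := by
      rw [hS, card_range]
      push_cast
      linarith [Nat.floor_le (by positivity : 0 ≤ 6 * s)]
    have c4 : 6 * s + 1 ≤ P * Y ^ (-c) := by
      have d1 : Y⁻¹ ≤ Y ^ (-c) := by
        rw [← Real.rpow_neg_one]
        exact Real.rpow_le_rpow_of_exponent_le (by linarith) (by linarith)
      have d2 : s ^ 6 ≤ P * Y⁻¹ := by
        rw [← div_eq_mul_inv, le_div_iff₀ hY0, ← hs7]
        calc s ^ 6 * Y ≤ s ^ 6 * s := mul_le_mul_of_nonneg_left hYs (by positivity)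
          _ = s ^ 7 := by ring
      have d3 : P * Y⁻¹ ≤ P * Y ^ (-c) := mul_le_mul_of_nonneg_left d1 hP0
      have d4 : 6 * s + 1 ≤ s ^ 6 := by
        have : (2 : ℝ) ^ 5 ≤ s ^ 5 := pow_le_pow_left₀ (by norm_num) hs2 5
        have : s ^ 6 = s ^ 5 * s := by ring
        nlinarith
      linarith
    have c5 : (({p : ℕ | p ≤ P ∧ p.Prime ∧ ¬ ∀ X : ℝ, Y ≤ X → X ^ 7 ≤ P →
        GoodChurchhouse g p ε (c / 2) X}.ncard : ℕ) : ℝ) ≤ (E ∪ S).card := by exact_mod_cast c1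
    linarith
  · have hsub : {m : ℕ | m ≤ P ∧ Odd m ∧ ¬ ∀ X : ℝ, Y ≤ X → X ^ 7 ≤ P →
        (∀ q : ℕ, q.Prime → q ∣ m → 6 * X < q) → GoodChurchhouse g m ε (c / 2) X} ⊆ (E : Set ℕ) := by
      rintro m ⟨m1, m2, m3⟩
      rw [mem_coe]
      by_contra hcon
      apply m3
      intro X hX1 hX2 hX3
      exact good_of g m ε (c / 2) X fun H' h1 h2 =>
        (L m m1 m2 hcon X H' hX1 hX2 hX3 h1 h2).trans (shrink X H' hX1 h1)
    have c1 : {m : ℕ | m ≤ P ∧ Odd m ∧ ¬ ∀ X : ℝ, Y ≤ X → X ^ 7 ≤ P →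
        (∀ q : ℕ, q.Prime → q ∣ m → 6 * X < q) → GoodChurchhouse g m ε (c / 2) X}.ncard ≤ E.card := by
      rw [← Set.ncard_coe_finset E]
      exact Set.ncard_le_ncard hsub (finite_toSet _)
    have c5 : (({m : ℕ | m ≤ P ∧ Odd m ∧ ¬ ∀ X : ℝ, Y ≤ X → X ^ 7 ≤ P →
        (∀ q : ℕ, q.Prime → q ∣ m → 6 * X < q) → GoodChurchhouse g m ε (c / 2) X}.ncard : ℕ) : ℝ) ≤
          E.card := by
      exact_mod_cast c1
    linarith

/-- the moments -/
theorem moments (ε : ℝ) (hε : 0 < ε) (hε1 : ε < 1 / 2) (k₀ : ℕ) (δ : ℝ) (B : ℕ) (hδ : 0 < δ) :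
    ∃ A C P₀ : ℕ, ∀ (g : ℕ → ℝ) (P : ℕ), (∀ n, g n = 1 ∨ g n = -1) → P₀ ≤ P →
      (({p : ℕ | p ≤ P ∧ p.Prime ∧ ¬ ∀ X : ℝ, Real.log P ^ C ≤ X → X ^ A ≤ P →
        Moments g p k₀ ε δ X}.ncard : ℕ) : ℝ) ≤ P / Real.log P ^ B ∧
      (({m : ℕ | m ≤ P ∧ Odd m ∧ ¬ ∀ X : ℝ, Real.log P ^ C ≤ X → X ^ A ≤ P →
        (∀ q : ℕ, q.Prime → q ∣ m → 12 * X < q) → Moments g m k₀ ε δ X}.ncard : ℕ) : ℝ) ≤
        P / Real.log P ^ B := by
  obtain ⟨A, C, P₀, hA, H⟩ := mom_all k₀ ε δ (B + 1) hε hε1 hδ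
  -- the small primes
  obtain ⟨P₁, hP₁⟩ : ∃ P₁ : ℕ, ∀ P : ℕ, P₁ ≤ P → 3 ≤ P ∧ 2 ≤ Real.log P ∧
      (12 * √(P : ℝ) + 1) * Real.log P ^ (B + 1) ≤ P := by
    have h1 := (Real.isLittleO_pow_log_id_atTop (n := B + 1)).bound (c := 1 / (13 * 2 ^ (B + 1))) (by positivity)
    have h2 : Tendsto (fun P : ℕ => √(P : ℝ)) atTop atTop :=
      (Real.tendsto_sqrt_atTop).comp tendsto_natCast_atTop_atTop
    have h3 := h2.eventually h1
    have h4 := (Real.tendsto_log_atTop.comp (tendsto_natCast_atTop_atTop (R := ℝ))).eventually_ge_atTop 2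
    have h5 := h3.and (h4.and (eventually_ge_atTop 3))
    obtain ⟨P₁, hP₁⟩ := eventually_atTop.1 h5
    refine ⟨P₁, fun P hP => ?_⟩
    obtain ⟨a1, a2, a3⟩ := hP₁ P hP
    refine ⟨a3, a2, ?_⟩
    have hP1 : (1 : ℝ) ≤ P := by exact_mod_cast (by omega : 1 ≤ P)
    have hP0 : (0 : ℝ) < P := by linarith
    have hs1 : 1 ≤ √(P : ℝ) := Real.one_le_sqrt.2 hP1
    have hlog : Real.log √(P : ℝ) = Real.log P / 2 := Real.log_sqrt hP0.le
    rw [hlog, id, Real.norm_of_nonneg (by positivity), Real.norm_of_nonneg (by positivity)] at a1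
    have a4 : Real.log P ^ (B + 1) ≤ √(P : ℝ) / 13 := by
      have e1 : (Real.log P / 2) ^ (B + 1) = Real.log P ^ (B + 1) / 2 ^ (B + 1) := div_pow _ _ _
      rw [e1, div_le_iff₀ (by positivity)] at a1
      refine a1.trans (le_of_eq ?_)
      field_simp
    calc (12 * √(P : ℝ) + 1) * Real.log P ^ (B + 1) ≤ (13 * √(P : ℝ)) * (√(P : ℝ) / 13) :=
          mul_le_mul (by linarith) a4 (by positivity) (by positivity)
      _ = √(P : ℝ) * √(P : ℝ) := by ring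
      _ = P := Real.mul_self_sqrt hP0.le
  refine ⟨A, C, max P₀ P₁, fun g P hg hP => ?_⟩
  obtain ⟨hP3, hl2, hsm⟩ := hP₁ P ((le_max_right _ _).trans hP)
  obtain ⟨E, hE, L⟩ := H g P hg ((le_max_left _ _).trans hP)
  have hP1 : (1 : ℝ) ≤ P := by exact_mod_cast (by omega : 1 ≤ P)
  have hP0 : (0 : ℝ) < P := by linarith
  set l := Real.log P with hl
  have hl0 : 0 < l := by linarith
  have hXpos : ∀ X : ℝ, l ^ C ≤ X → 0 < X := fun X hX => lt_of_lt_of_le (by positivity) hX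
  have hEB : (P : ℝ) / l ^ (B + 1) ≤ P / l ^ B / 2 := by
    rw [pow_succ, div_div, div_le_div_iff₀ (by positivity) (by positivity)]
    have : 0 < l ^ B := by positivity
    nlinarith [mul_pos hP0 this]
  have hpos : 0 ≤ (P : ℝ) / l ^ B := by positivity
  constructor
  · set S : Finset ℕ := range (⌊12 * √(P : ℝ)⌋₊ + 1) with hS
    have hsub : {p : ℕ | p ≤ P ∧ p.Prime ∧ ¬ ∀ X : ℝ, l ^ C ≤ X → X ^ A ≤ P → Moments g p k₀ ε δ X} ⊆
        ((E ∪ S : Finset ℕ) : Set ℕ) := by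
      rintro p ⟨p1, p2, p3⟩
      rw [coe_union, Set.mem_union, mem_coe, mem_coe]
      by_contra hcon
      rw [not_or] at hcon
      have hbig : 12 * √(P : ℝ) < p := by
        have : ⌊12 * √(P : ℝ)⌋₊ < p := by
          have := hcon.2
          rw [hS, mem_range] at this
          omega
        exact (Nat.floor_lt (by positivity)).1 this
      apply p3
      intro X hX1 hX2
      have hX0 := hXpos X hX1
      have hX3 : X ≤ √(P : ℝ) := by
        apply Real.le_sqrt_of_sq_le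
        rcases le_total 1 X with h1 | h1
        · exact (pow_le_pow_right₀ h1 hA).trans hX2
        · exact (pow_le_one₀ hX0.le h1).trans hP1
      have hodd : Odd p := by
        rcases p2.eq_two_or_odd' with h2 | h2
        · exfalso
          have : 1 ≤ √(P : ℝ) := Real.one_le_sqrt.2 hP1
          rw [h2] at hbig
          push_cast at hbig
          linarith
        · exact h2
      refine moments_of g p k₀ ε δ X fun H' h1 h2 k hk => ?_
      refine L p p1 hodd hcon.1 X H' hX1 hX2 (fun q hq hqd => ?_) h1 h2 k hk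
      rw [(Nat.prime_dvd_prime_iff_eq hq p2).1 hqd]
      linarith
    have c1 : {p : ℕ | p ≤ P ∧ p.Prime ∧ ¬ ∀ X : ℝ, l ^ C ≤ X → X ^ A ≤ P → Moments g p k₀ ε δ X}.ncard ≤
        (E ∪ S).card := by
      rw [← Set.ncard_coe_finset (E ∪ S)]
      exact Set.ncard_le_ncard hsub (finite_toSet _)
    have c2 : ((E ∪ S).card : ℝ) ≤ E.card + S.card := by exact_mod_cast card_union_le _ _
    have c3 : (S.card : ℝ) ≤ 12 * √(P : ℝ) + 1 := by
      rw [hS, card_range]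
      push_cast
      linarith [Nat.floor_le (by positivity : 0 ≤ 12 * √(P : ℝ))]
    have c4 : 12 * √(P : ℝ) + 1 ≤ P / l ^ (B + 1) := by
      rw [le_div_iff₀ (by positivity)]
      exact hsm
    have c5 : (({p : ℕ | p ≤ P ∧ p.Prime ∧ ¬ ∀ X : ℝ, l ^ C ≤ X → X ^ A ≤ P →
        Moments g p k₀ ε δ X}.ncard : ℕ) : ℝ) ≤ (E ∪ S).card := by exact_mod_cast c1
    linarith
  · have hsub : {m : ℕ | m ≤ P ∧ Odd m ∧ ¬ ∀ X : ℝ, l ^ C ≤ X → X ^ A ≤ P →
        (∀ q : ℕ, q.Prime → q ∣ m → 12 * X < q) → Moments g m k₀ ε δ X} ⊆ (E : Set ℕ) := by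
      rintro m ⟨m1, m2, m3⟩
      rw [mem_coe]
      by_contra hcon
      apply m3
      intro X hX1 hX2 hX3
      exact moments_of g m k₀ ε δ X fun H' h1 h2 k hk =>
        L m m1 m2 hcon X H' hX1 hX2 hX3 h1 h2 k hk
    have c1 : {m : ℕ | m ≤ P ∧ Odd m ∧ ¬ ∀ X : ℝ, l ^ C ≤ X → X ^ A ≤ P →
        (∀ q : ℕ, q.Prime → q ∣ m → 12 * X < q) → Moments g m k₀ ε δ X}.ncard ≤ E.card := by
      rw [← Set.ncard_coe_finset E]
      exact Set.ncard_le_ncard hsub (finite_toSet _)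
    have c5 : (({m : ℕ | m ≤ P ∧ Odd m ∧ ¬ ∀ X : ℝ, l ^ C ≤ X → X ^ A ≤ P →
        (∀ q : ℕ, q.Prime → q ∣ m → 12 * X < q) → Moments g m k₀ ε δ X}.ncard : ℕ) : ℝ) ≤ E.card := by
      exact_mod_cast c1
    linarith

/-- **The Good-Churchhouse conjecture and all moments for almost all quadratic twists.** Let `0 < ε < 1/2`.
* (1) There are `c > 0` and `Y₀` such that for all `g` with values `1`, `-1`, all `P` and all `Y ≥ Y₀`, for all but
  at most `P Y ^ (-c)` of the primes `p ≤ P`: for all real `X ≥ Y` with `X ^ 7 ≤ P` and all `H` with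
  `1 ≤ H ≤ X ^ (1-ε)`, `|V(X;H) - H/ζ(2)| ≤ H X ^ (-c)`. The same for the odd `m ≤ P`, for those `X` with `6 X` smaller
  than all prime factors of `m`.
* (2) For all `k₀`, `δ > 0`, `B` there are `A`, `C`, `P₀` such that for all `g` and all `P ≥ P₀`, for all but at most
  `P / log ^ B P` of the primes `p ≤ P`: for all real `X` with `log ^ C P ≤ X` and `X ^ A ≤ P`, all `H` with
  `X ^ ε ≤ H ≤ X ^ (1-ε)` and all `k ≤ k₀` the moment of order `k` is that of the normal law up to `δ`. The same for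
  the odd `m ≤ P`, for those `X` with `12 X` smaller than all prime factors of `m`. -/
theorem result (ε : ℝ) (hε : 0 < ε) (hε1 : ε < 1 / 2) :
    (∃ c Y₀ : ℝ, 0 < c ∧ 1 ≤ Y₀ ∧ ∀ (g : ℕ → ℝ) (P : ℕ) (Y : ℝ), (∀ n, g n = 1 ∨ g n = -1) → Y₀ ≤ Y →
      (({p : ℕ | p ≤ P ∧ p.Prime ∧ ¬ ∀ X : ℝ, Y ≤ X → X ^ 7 ≤ P →
        GoodChurchhouse g p ε c X}.ncard : ℕ) : ℝ) ≤ P * Y ^ (-c) ∧
      (({m : ℕ | m ≤ P ∧ Odd m ∧ ¬ ∀ X : ℝ, Y ≤ X → X ^ 7 ≤ P →
        (∀ q : ℕ, q.Prime → q ∣ m → 6 * X < q) → GoodChurchhouse g m ε c X}.ncard : ℕ) : ℝ) ≤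
        P * Y ^ (-c)) ∧
    (∀ (k₀ : ℕ) (δ : ℝ) (B : ℕ), 0 < δ → ∃ A C P₀ : ℕ, ∀ (g : ℕ → ℝ) (P : ℕ),
      (∀ n, g n = 1 ∨ g n = -1) → P₀ ≤ P →
      (({p : ℕ | p ≤ P ∧ p.Prime ∧ ¬ ∀ X : ℝ, Real.log P ^ C ≤ X → X ^ A ≤ P →
        Moments g p k₀ ε δ X}.ncard : ℕ) : ℝ) ≤ P / Real.log P ^ B ∧
      (({m : ℕ | m ≤ P ∧ Odd m ∧ ¬ ∀ X : ℝ, Real.log P ^ C ≤ X → X ^ A ≤ P →
        (∀ q : ℕ, q.Prime → q ∣ m → 12 * X < q) → Moments g m k₀ ε δ X}.ncard : ℕ) : ℝ) ≤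
        P / Real.log P ^ B) :=
  ⟨variance ε hε (by linarith), fun k₀ δ B hδ => moments ε hε hε1 k₀ δ B hδ⟩

end Pool.Agent.Results.MP_0575cc_nt.QuadraticTwists
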